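import Pool.Agent.H628R3.RO.BaseE

/-!
# Systems of blocks

`B` blocks with `2 * J` slots each; `Z b i` is the event that slot `i` of block `b` is zero. The
slots are independent, each is zero with probability `a`.
-/

namespace Pool.Agent.H583R2.BK

open MeasureTheory Pool.Agent.H628R3.RO

section

variable (Z : ℕ → ℕ → Set Oracle) (B J : ℕ)

/-- no slot of the block is zero -/
def AllHit (b : ℕ) : Set Oracle := {A | ∀ i < 2 * J, A ∉ Z b i}

/-- no slot of the block outside of pair `j` is zero -/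
def Others (b j : ℕ) : Set Oracle :=
  {A | ∀ i < 2 * J, i ≠ 2 * j → i ≠ 2 * j + 1 → A ∉ Z b i}

/-- exactly one slot of the block is zero -/
def One (b : ℕ) : Set Oracle :=
  {A | ∃ i₀ < 2 * J, A ∈ Z b i₀ ∧ ∀ i < 2 * J, i ≠ i₀ → A ∉ Z b i}

/-- some block has no zero slot -/
def Bad : Set Oracle := {A | ∃ b < B, A ∈ AllHit Z J b}

/-- some block has exactly two zero slots, and they are partners -/
def Two : Set Oracle := {A | ∃ b < B, ∃ j < J, A ∈ Others Z J b j ∧
  A ∈ Z b (2 * j) ∧ A ∈ Z b (2 * j + 1)}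

/-- the promise fails -/
def Inv : Set Oracle := Bad Z B J ∪ Two Z B J

/-- no block other than `b` has at most one zero slot -/
def Quiet (b : ℕ) : Set Oracle :=
  {A | ∀ b' < B, b' ≠ b → A ∉ AllHit Z J b' ∧ A ∉ One Z J b'}

/-- exactly one slot of pair `j` is zero -/
def Ex (b j : ℕ) : Set Oracle := {A | ¬ (A ∈ Z b (2 * j) ↔ A ∈ Z b (2 * j + 1))}

end

/-- the slots are independent and are zero with probability `a` -/
structure Sys (Z : ℕ → ℕ → Set Oracle) (sp : ℕ → ℕ → Set (List Bool)) (a : ℝ) (B J : ℕ) :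
    Prop where
  fin : ∀ b < B, ∀ i < 2 * J, (sp b i).Finite
  disj : ∀ b < B, ∀ i < 2 * J, ∀ b' < B, ∀ i' < 2 * J, (b ≠ b' ∨ i ≠ i') →
    Disjoint (sp b i) (sp b' i')
  loc : ∀ b < B, ∀ i < 2 * J, Loc (sp b i) (Z b i)
  pr : ∀ b < B, ∀ i < 2 * J, prob (Z b i) = a
  a0 : 0 ≤ a
  a1 : a ≤ 1 / 2

end Pool.Agent.H583R2.BK
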