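import Pool.Agent.H583R2.BK.Defs
import Pool.Agent.H628R3.RO.F0
import Pool.Agent.H628R3.RO.C2

/-!
# The core theorem for separations, simple schedule (task B3, helper51)
-/

namespace Pool.Agent.H583R2.BK

open MeasureTheory Filter Pool.Agent.NPC Pool.Agent.H628R3.RO

/-- the stages in use -/
noncomputable def TT (i : ℕ) : ℕ := Tt Polynomial.X 0 i

/-- the schedule: stage `TT i` has level `i + 4` -/
noncomputable def fT (n0 n : ℕ) : Option ℕ :=
  schK (fun _ _ => Set.univ) (fun _ _ => ∅) Polynomial.X 0 [] n0 n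

namespace B3

theorem check_triv : Check (fun _ _ => Set.univ) (fun _ _ => ∅) Polynomial.X where
  le_eval m := by rw [Polynomial.eval_X]
  locErr _ _ := fun _ _ _ => Iff.rfl
  locBad _ _ _ := fun _ _ _ => Iff.rfl
  pErr := ⟨fun _ _ _ => false, fun _ _ _ => by simp, fun _ _ _ _ _ => NPC.Poly.const false⟩
  pBad := ⟨fun _ _ _ => true, fun _ _ _ => by simp, fun _ _ _ _ _ => NPC.Poly.const true⟩

theorem prob_cyl_pos : 0 < prob (cyl 0 []) := by
  classical
  have h := prob_eq_count (loc_cyl' 0 [] (le_refl 0))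
  have hmem : ([] : List (List Bool)) ∈ (strs 0).sublists.filter
      (fun S => decide (ofL S ∈ cyl 0 [])) := by
    rw [List.mem_filter]
    refine ⟨List.mem_sublists.2 (List.nil_sublist _), ?_⟩
    rw [decide_eq_true_eq]
    intro x _
    rfl
  have hpos : 0 < ((strs 0).sublists.filter (fun S => decide (ofL S ∈ cyl 0 []))).length :=
    List.length_pos_of_mem hmem
  have h2 : (0 : ℝ) < prob (cyl 0 []) * 2 ^ (strs 0).length := by
    rw [h]
    exact_mod_cast hpos
  exact pos_of_mul_pos_left h2 (by positivity)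

theorem lev_TT (i : ℕ) : lev (fun _ _ => Set.univ) (fun _ _ => ∅) 0 []
    (Tt Polynomial.X 0) i = i + 4 := by
  induction i with
  | zero => rfl
  | succ i ih =>
    have h : ∀ n s, chk (fun _ _ => Set.univ) (fun _ _ => ∅) 0 [] n s = true := by
      intro n s
      unfold chk
      rw [decide_eq_true_eq]
      have h0 : prob (cyl 0 [] ∩ (Set.univ ∩ (∅ : Set Oracle))) = 0 := by
        rw [Set.inter_empty, Set.inter_empty]
        unfold prob
        exact measureReal_empty
      rw [h0, mul_zero, Set.inter_univ]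
      exact prob_cyl_pos
    rw [C1.lev_succ, h, ih]
    have : (true).toNat = 1 := rfl
    omega

end B3

theorem fT_TT {n0 i : ℕ} (h : n0 ≤ TT i) : fT n0 (TT i) = some (i + 4) := by
  have h1 := schK_Tt (Bad := fun _ _ => Set.univ) (Err := fun _ _ => ∅) (b := Polynomial.X)
    (t := 0) (L := []) (n0 := n0) (i := i) h
  rw [B3.lev_TT] at h1
  exact h1

theorem eq_of_fT {n0 n s : ℕ} (h : fT n0 n = some s) : n0 ≤ n ∧ ∃ i, n = TT i ∧ s = i + 4 := by
  obtain ⟨h1, i, h2, h3⟩ := eq_of_schK h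
  rw [B3.lev_TT] at h3
  exact ⟨h1, i, h2, h3⟩

theorem le_TT (i : ℕ) : i + 4 ≤ TT i := by
  have := add_le_Tt Polynomial.X 0 i
  unfold TT
  omega

theorem strictMono_TT : StrictMono TT := strictMono_Tt Polynomial.X 0

theorem p_fT (n0 : ℕ) : Poly (fun x : List Unit => fT n0 x.length) := by
  refine Poly.ite (Poly.decide_le (NPC.Poly.const n0) (Poly.length Poly.id)) ?_
    (NPC.Poly.const none)
  exact p_sch 0 [] B3.check_triv (UPoly.length Poly.id)

namespace B3

theorem loc_step {Good : ℕ → ℕ → Set Oracle}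
    (hGood : ∃ b' : Polynomial ℕ, ∀ n s, s ≤ n →
      Loc {x | x.length ≤ b'.eval (2 ^ n)} (Good n s)) :
    ∃ N, ∀ i ≥ N, Loc {x | x.length ≤ TT (i + 1) - 1} (Good (TT i) (i + 4)) := by
  obtain ⟨b', hb'⟩ := hGood
  obtain ⟨N, hN⟩ := C2.poly_le b' 1
  refine ⟨N, fun i hi => C2.loc_mono (C2.len_subset ?_) (hb' (TT i) (i + 4) (le_TT i))⟩
  have e0 : ∀ x : ℕ, x ≤ 2 ^ x := fun x => Nat.lt_two_pow_self.le
  have h5 : N ≤ 2 ^ (TT i) := by
    have := le_TT i
    have := e0 (TT i)
    omega
  have h6 := hN _ h5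
  rw [one_mul] at h6
  have h7 : TT (i + 1) = 2 ^ (2 ^ (Polynomial.X.eval (2 ^ (TT i)) + 1)) + TT i + 1 := rfl
  rw [Polynomial.eval_X] at h7
  have h8 : 2 ^ (2 ^ (TT i)) ≤ 2 ^ (2 ^ (2 ^ (TT i) + 1)) := by
    refine Nat.pow_le_pow_right (by norm_num) ?_
    have h10 := e0 (2 ^ (TT i) + 1)
    omega
  omega

/-- one reduction fails infinitely often -/
theorem one_red (G : ℕ → Set Oracle) (l : ℕ → ℝ) (hl0 : ∀ s, 0 ≤ l s) (hl : ¬ Summable l)
    (k N1 n0 : ℕ) (hN1 : ∀ i ≥ N1, Loc {x | x.length ≤ TT (i + 1) - 1} (G i))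
    (key : ∀ i, n0 ≤ TT i → ∀ t < TT i, ∀ η : Set Oracle, Loc {x | x.length ≤ t} η →
      l (i + 4) * (7 / 8 * prob η) ≤ prob (η ∩ (G i)ᶜ)) :
    prob {A | ∀ i ≥ k, A ∈ G i} = 0 := by
  set k' := max k (max N1 n0) with hk'
  have hk1 : k ≤ k' := le_max_left _ _
  have hk2 : N1 ≤ k' := (le_max_left _ _).trans (le_max_right _ _)
  have hk3 : n0 ≤ k' := (le_max_right _ _).trans (le_max_right _ _)
  set G' : Unit → ℕ → Set Oracle := fun _ i => G i with hG'
  set q : ℕ → ℕ := fun i => TT i - 1 with hq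
  have hqm : Monotone q := fun i j hij => Nat.sub_le_sub_right (strictMono_TT.monotone hij) 1
  have hGl : ∀ i ≥ k', Loc {x | x.length ≤ q (i + 1)} (G' () i) := fun i hi =>
    hN1 i (hk2.trans hi)
  have hal : ∀ m, k' ≤ m → Loc {x | x.length ≤ q m} (C2.Alive Set.univ G' k' () m) := fun m hm =>
    C2.alive_loc hqm (fun _ _ _ => Iff.rfl) hGl hm
  set a : ℕ → ℝ := fun m => prob (C2.Alive Set.univ G' k' () m) with ha
  have hfin : ∀ n, {x : List Bool | x.length ≤ n}.Finite := C1.finite_len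
  have hstep : ∀ m, k' ≤ m → l (m + 4) * (7 / 8 * a m) ≤ a m - a (m + 1) := by
    intro m hm
    have h1 := key m (by
      have := le_TT m
      omega) (q m) (by
      have := le_TT m
      simp only [hq]
      omega) _ (hal m hm)
    have h2 : a m = prob (C2.Alive Set.univ G' k' () m ∩ G m) +
        prob (C2.Alive Set.univ G' k' () m ∩ (G m)ᶜ) := by
      rw [← C1.pr_disj]
      · simp only [ha]
        congr 1
        rw [← Set.inter_union_distrib_left, Set.union_compl_self, Set.inter_univ]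
      · rw [Set.disjoint_left]
        rintro A ⟨_, h4⟩ ⟨_, h5⟩
        exact h5 h4
      · exact (measurableSet_of_loc (hfin _) (hal m hm)).inter
          (measurableSet_of_loc (hfin _) (hGl m hm)).compl
    have h3 : a (m + 1) = prob (C2.Alive Set.univ G' k' () m ∩ G m) := by
      simp only [ha]
      rw [C2.alive_succ () hm]
    simp only [ha] at h1 h2 h3 ⊢
    linarith
  set P := prob {A | ∀ i ≥ k, A ∈ G i} with hP
  have hPa : ∀ m, P ≤ a m := by
    intro m
    refine C1.pr_mono ?_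
    intro A hA
    exact ⟨Set.mem_univ A, fun i hi _ => hA i (hk1.trans hi)⟩
  have hP0 : 0 ≤ P := C1.pr_nonneg _
  by_contra hne
  have hPpos : 0 < P := lt_of_le_of_ne hP0 (Ne.symm hne)
  have htel : ∀ n, (7 / 8 * P) * ∑ j ∈ Finset.range n, l (j + (k' + 4)) ≤ a k' - a (k' + n) := by
    intro n
    induction n with
    | zero => simp
    | succ n ih =>
      rw [Finset.sum_range_succ, mul_add]
      have h1 := hstep (k' + n) (Nat.le_add_right _ _)
      have h2 := hPa (k' + n)
      have h3 : l (n + (k' + 4)) = l (k' + n + 4) := by congr 1; omega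
      have h4 : (7 / 8 * P) * l (n + (k' + 4)) ≤ l (k' + n + 4) * (7 / 8 * a (k' + n)) := by
        rw [h3, mul_comm]
        exact mul_le_mul_of_nonneg_left (by linarith) (hl0 _)
      have h5 : k' + (n + 1) = k' + n + 1 := by omega
      rw [h5]
      linarith
  have hbdd : ∀ n, ∑ j ∈ Finset.range n, l (j + (k' + 4)) ≤ a k' / (7 / 8 * P) := by
    intro n
    rw [le_div_iff₀ (by positivity)]
    have h1 := htel n
    have h2 : 0 ≤ a (k' + n) := C1.pr_nonneg _
    linarith
  have hsum : Summable (fun j => l (j + (k' + 4))) :=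
    summable_of_sum_range_le (fun j => hl0 _) hbdd
  exact hl ((summable_nat_add_iff (k' + 4)).1 hsum)

end B3

theorem core_zero {R : Type} [Countable R] (Inv : ℕ → ℕ → Set Oracle)
    (Good : R → ℕ → ℕ → Set Oracle) (e l : ℕ → ℝ) (he0 : ∀ s, 0 ≤ e s) (he : Summable e) (N₀ : ℕ)
    (hInv : ∀ n s, N₀ ≤ n → 4 ≤ s → s ≤ n → prob (Inv n s) ≤ e s)
    (hl0 : ∀ s, 0 ≤ l s) (hl : ¬ Summable l)
    (hGood : ∀ r, ∃ b' : Polynomial ℕ, ∀ n s, s ≤ n →
      Loc {x | x.length ≤ b'.eval (2 ^ n)} (Good r n s))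
    (key : ∀ r : R, ∃ n0, ∀ n ≥ n0, ∀ s, 4 ≤ s → s ≤ n → ∀ t < n, ∀ η : Set Oracle,
      Loc {x | x.length ≤ t} η → l s * (7 / 8 * prob η) ≤ prob (η ∩ (Good r n s)ᶜ)) :
    ∀ᵐ A ∂randomOracle, (∃ k, ∀ i ≥ k, A ∉ Inv (TT i) (i + 4)) ∧
      ∀ r k, ∃ i ≥ k, A ∉ Good r (TT i) (i + 4) := by
  -- the first part
  have hBC := C1.borel_cantelli (fun i => Inv (TT i) (i + 4)) (C := N₀ + ∑' s, e s) (by
    intro n
    have h1 : ∀ i ∈ Finset.range n, prob (Inv (TT i) (i + 4)) ≤
        (if i < N₀ then 1 else 0) + e (i + 4) := by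
      intro i _
      by_cases hi : i < N₀
      · rw [if_pos hi]
        have h2 : prob (Inv (TT i) (i + 4)) ≤ 1 := by
          have h3 := C1.pr_mono (Set.subset_univ (Inv (TT i) (i + 4)))
          refine h3.trans (le_of_eq ?_)
          unfold prob
          exact probReal_univ
        have := he0 (i + 4)
        linarith
      · rw [if_neg hi, zero_add]
        have h4 := le_TT i
        exact hInv _ _ (by omega) (by omega) h4
    refine (Finset.sum_le_sum h1).trans ?_
    rw [Finset.sum_add_distrib]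
    have h5 : ∑ i ∈ Finset.range n, (if i < N₀ then (1 : ℝ) else 0) ≤ N₀ := by
      rw [← Finset.sum_filter, Finset.sum_const, nsmul_eq_mul, mul_one]
      have h6 : ((Finset.range n).filter (fun i => i < N₀)).card ≤ N₀ := by
        have h7 : (Finset.range n).filter (fun i => i < N₀) ⊆ Finset.range N₀ := by
          intro i hi
          exact Finset.mem_range.2 (Finset.mem_filter.1 hi).2
        have := Finset.card_le_card h7
        rwa [Finset.card_range] at this
      exact_mod_cast h6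
    have h8 : ∑ i ∈ Finset.range n, e (i + 4) ≤ ∑' s, e s := by
      have h9 : ∑ i ∈ Finset.range n, e (i + 4) ≤ ∑ s ∈ Finset.range (n + 4), e s := by
        have h10 : ∀ m, ∑ i ∈ Finset.range m, e (i + 4) ≤ ∑ s ∈ Finset.range (m + 4), e s := by
          intro m
          induction m with
          | zero =>
            simp only [Finset.range_zero, Finset.sum_empty]
            exact Finset.sum_nonneg fun s _ => he0 s
          | succ m ih =>
            rw [Finset.sum_range_succ, show m + 1 + 4 = (m + 4) + 1 by omega,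
              Finset.sum_range_succ]
            linarith
        exact h10 n
      exact h9.trans (he.sum_le_tsum _ fun s _ => he0 s)
    linarith)
  have hae1 : ∀ᵐ A ∂randomOracle, ∃ k, ∀ i ≥ k, A ∉ Inv (TT i) (i + 4) := by
    rw [ae_iff]
    refine measure_mono_null ?_ hBC
    intro A hA
    rw [Set.mem_ofPred_eq] at hA ⊢
    rw [Filter.frequently_atTop]
    push Not at hA
    exact hA
  have hae2 : ∀ r k, ∀ᵐ A ∂randomOracle, ∃ i ≥ k, A ∉ Good r (TT i) (i + 4) := by
    intro r k
    obtain ⟨N1, hN1⟩ := B3.loc_step (hGood r)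
    obtain ⟨n0, hn0⟩ := key r
    have h1 := B3.one_red (fun i => Good r (TT i) (i + 4)) l hl0 hl k N1 n0 hN1
      (fun i hi t ht η hη => hn0 (TT i) hi (i + 4) (by omega) (le_TT i) t ht η hη)
    rw [ae_iff]
    unfold prob at h1
    rw [measureReal_eq_zero_iff] at h1
    refine measure_mono_null ?_ h1
    intro A hA
    rw [Set.mem_ofPred_eq] at hA ⊢
    push Not at hA
    exact hA
  filter_upwards [hae1, ae_all_iff.2 fun r => ae_all_iff.2 fun k => hae2 r k] with A h1 h2
  exact ⟨h1, h2⟩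

end Pool.Agent.H583R2.BK
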