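import Pool.Agent.H583R2.BK.Prb
import Pool.Agent.H628R3.RO.M1
import Pool.Agent.H628R3.RO.M2

/-!
# The key inequality for a system (task B2, helper959)
-/

namespace Pool.Agent.H583R2.BK

open MeasureTheory Pool.Agent.NPC Pool.Agent.H628R3.RO Pool.Agent.H628R3.RO.M2

namespace KY

theorem sum_prob_le_prob {ι : Type} (S : Finset ι) (f : ι → Set Oracle)
    (hm : ∀ i ∈ S, MeasurableSet (f i))
    (hd : ∀ i ∈ S, ∀ j ∈ S, i ≠ j → Disjoint (f i) (f j)) {T : Set Oracle}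
    (hT : ∀ i ∈ S, f i ⊆ T) : ∑ i ∈ S, prob (f i) ≤ prob T := by
  have h1 : prob (⋃ i ∈ S, f i) = ∑ i ∈ S, prob (f i) :=
    measureReal_biUnion_finset (fun i hi j hj hij => hd i hi j hj hij) hm
  rw [← h1]
  exact prob_mono (Set.iUnion₂_subset hT)

variable {Z : ℕ → ℕ → Set Oracle} {sp : ℕ → ℕ → Set (List Bool)} {a : ℝ} {B J : ℕ}

theorem loc_all (h : Sys Z sp a B J) :
    ∃ K : Set (List Bool), K.Finite ∧ ∀ A A' : Oracle, (∀ x ∈ K, A x = A' x) →
      ∀ b < B, ∀ i < 2 * J, (A ∈ Z b i ↔ A' ∈ Z b i) := by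
  refine ⟨⋃ b ∈ Finset.range B, ⋃ i ∈ Finset.range (2 * J), sp b i, ?_, ?_⟩
  · refine Set.Finite.biUnion (Finset.finite_toSet _) fun b hb => ?_
    refine Set.Finite.biUnion (Finset.finite_toSet _) fun i hi => ?_
    exact h.fin b (Finset.mem_range.1 hb) i (Finset.mem_range.1 hi)
  · intro A A' hA b hb i hi
    refine h.loc b hb i hi A A' fun x hx => hA x ?_
    exact Set.mem_biUnion (Finset.mem_range.2 hb) (Set.mem_biUnion (Finset.mem_range.2 hi) hx)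

theorem iff_AllHit {A A' : Oracle} {b : ℕ} (h : ∀ i < 2 * J, (A ∈ Z b i ↔ A' ∈ Z b i)) :
    A ∈ AllHit Z J b ↔ A' ∈ AllHit Z J b :=
  forall₂_congr fun i hi => not_congr (h i hi)

theorem iff_One {A A' : Oracle} {b : ℕ} (h : ∀ i < 2 * J, (A ∈ Z b i ↔ A' ∈ Z b i)) :
    A ∈ One Z J b ↔ A' ∈ One Z J b := by
  constructor
  · rintro ⟨i₀, h1, h2, h3⟩
    exact ⟨i₀, h1, (h i₀ h1).1 h2, fun i hi hne h4 => h3 i hi hne ((h i hi).2 h4)⟩
  · rintro ⟨i₀, h1, h2, h3⟩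
    exact ⟨i₀, h1, (h i₀ h1).2 h2, fun i hi hne h4 => h3 i hi hne ((h i hi).1 h4)⟩

theorem iff_Quiet {A A' : Oracle} {b : ℕ}
    (h : ∀ b < B, ∀ i < 2 * J, (A ∈ Z b i ↔ A' ∈ Z b i)) :
    A ∈ Quiet Z B J b ↔ A' ∈ Quiet Z B J b :=
  forall₃_congr fun b' hb' _ => and_congr (not_congr (iff_AllHit (h b' hb')))
    (not_congr (iff_One (h b' hb')))

theorem iff_Others {A A' : Oracle} {b j : ℕ} (h : ∀ i < 2 * J, (A ∈ Z b i ↔ A' ∈ Z b i)) :
    A ∈ Others Z J b j ↔ A' ∈ Others Z J b j :=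
  forall₄_congr fun i hi _ _ => not_congr (h i hi)

theorem iff_Ex {A A' : Oracle} {b j : ℕ} (hj : j < J)
    (h : ∀ i < 2 * J, (A ∈ Z b i ↔ A' ∈ Z b i)) : A ∈ Ex Z b j ↔ A' ∈ Ex Z b j :=
  not_congr (iff_congr (h (2 * j) (by omega)) (h (2 * j + 1) (by omega)))

theorem num {a ε P l Pη : ℝ} {B J : ℕ} (ha0 : 0 ≤ a) (ha1 : a ≤ 1 / 2)
    (hε : ε ≤ 1 / 32) (hPη : 0 ≤ Pη)
    (hl : l ≤ J * a / (1 - a) * (B * (1 - a) ^ (2 * J)))
    (hJ : 0 < J) (hsum : (B : ℝ) * (J * (a * ((1 - a - ε) *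
      (15 / 16 * (1 - a) ^ (2 * J - 2) * Pη)))) ≤ P) : l * (7 / 8 * Pη) ≤ P := by
  have h1a : 0 < 1 - a := by linarith
  set y : ℝ := (1 - a) ^ (2 * J - 2) with hy
  have hy0 : 0 ≤ y := by positivity
  have hpow : (1 - a) ^ (2 * J) = y * (1 - a) ^ 2 := by
    rw [hy, ← pow_add]; congr 1; omega
  have e1 : J * a / (1 - a) * (B * (1 - a) ^ (2 * J)) = B * J * a * ((1 - a) * y) := by
    rw [hpow]
    field_simp
  rw [e1] at hl
  have h7 : 0 ≤ 7 / 8 * Pη := by positivity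
  refine le_trans (mul_le_mul_of_nonneg_right hl h7) (le_trans ?_ hsum)
  have h8 : (1 - a) * (7 / 8) ≤ (1 - a - ε) * (15 / 16) := by linarith
  have h9 : 0 ≤ (B : ℝ) * J * a * y * Pη := by positivity
  have h10 := mul_le_mul_of_nonneg_left h8 h9
  calc B * J * a * ((1 - a) * y) * (7 / 8 * Pη)
      = B * J * a * y * Pη * ((1 - a) * (7 / 8)) := by ring
    _ ≤ B * J * a * y * Pη * ((1 - a - ε) * (15 / 16)) := h10
    _ = _ := by ring

end KY

open KY

section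

variable {Z : ℕ → ℕ → Set Oracle} {sp : ℕ → ℕ → Set (List Bool)} {a : ℝ} {B J : ℕ}

theorem key_gen (h : Sys Z sp a B J) {K₀ : Set (List Bool)} (hK : K₀.Finite)
    (hd : ∀ b < B, ∀ i < 2 * J, Disjoint K₀ (sp b i)) {η G : Set Oracle} (hη : Loc K₀ η)
    (hG : MeasurableSet G) {ε : ℝ} (hε0 : 0 ≤ ε) (hε : ε ≤ 1 / 32)
    (hq : (B : ℝ) * ((1 - a) ^ (2 * J) + (2 * J : ℕ) * a * (1 - a) ^ (2 * J - 1)) ≤ 1 / 16)
    {l : ℝ} (hl : l ≤ J * a / (1 - a) * (B * (1 - a) ^ (2 * J)))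
    (key : ∀ b < B, ∀ j < J, a * ((1 - a - ε) * prob (η ∩ (Quiet Z B J b ∩ Others Z J b j))) ≤
      prob ((η ∩ (Quiet Z B J b ∩ Others Z J b j)) ∩ (Ex Z b j ∩ Gᶜ))) :
    l * (7 / 8 * prob η) ≤ prob (η ∩ Gᶜ) := by
  classical
  have ha0 := h.a0
  have ha1 := h.a1
  have h1a : 0 < 1 - a := by linarith
  have hPη : 0 ≤ prob η := prob_nonneg _
  have hP : 0 ≤ prob (η ∩ Gᶜ) := prob_nonneg _
  by_cases hJ : 0 < J
  swap
  · have hJ0 : J = 0 := by omega
    have hl0 : l ≤ 0 := by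
      rw [hJ0] at hl
      simpa using hl
    have : 0 ≤ 7 / 8 * prob η := by positivity
    exact le_trans (mul_nonpos_of_nonpos_of_nonneg hl0 this) hP
  obtain ⟨K, hKf, hKZ⟩ := loc_all h
  set Y : ℕ × ℕ → Set Oracle := fun p =>
    (η ∩ (Quiet Z B J p.1 ∩ Others Z J p.1 p.2)) ∩ (Ex Z p.1 p.2 ∩ Gᶜ) with hY
  have hYm : ∀ p ∈ Finset.range B ×ˢ Finset.range J, MeasurableSet (Y p) := by
    rintro ⟨b, j⟩ hp
    rw [Finset.mem_product, Finset.mem_range, Finset.mem_range] at hp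
    obtain ⟨hb, hj⟩ := hp
    have m0 : MeasurableSet η := measurableSet_of_loc hK hη
    have m1 : MeasurableSet (Quiet Z B J b) :=
      measurableSet_of_loc hKf fun A A' hA => iff_Quiet (hKZ A A' hA)
    have m2 : MeasurableSet (Others Z J b j) :=
      measurableSet_of_loc hKf fun A A' hA => iff_Others (hKZ A A' hA b hb)
    have m3 : MeasurableSet (Ex Z b j) :=
      measurableSet_of_loc hKf fun A A' hA => iff_Ex hj (hKZ A A' hA b hb)
    exact (m0.inter (m1.inter m2)).inter (m3.inter hG.compl)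
  have hYsum : ∑ p ∈ Finset.range B ×ˢ Finset.range J, prob (Y p) ≤ prob (η ∩ Gᶜ) := by
    apply sum_prob_le_prob _ _ hYm
    · rintro ⟨b, j⟩ hp ⟨b', j'⟩ hp' hne
      rw [Finset.mem_product, Finset.mem_range, Finset.mem_range] at hp hp'
      obtain ⟨hb, hj⟩ := hp
      obtain ⟨hb', hj'⟩ := hp'
      simp only at hb hj hb' hj'
      rw [Set.disjoint_left]
      rintro A ⟨⟨_, hQ, hO⟩, hX, _⟩ ⟨⟨_, hQ', hO'⟩, hX', _⟩
      have hX2 : (A ∈ Z b' (2 * j') ∧ A ∉ Z b' (2 * j' + 1)) ∨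
          (A ∉ Z b' (2 * j') ∧ A ∈ Z b' (2 * j' + 1)) := by
        have h1 : ¬ (A ∈ Z b' (2 * j') ↔ A ∈ Z b' (2 * j' + 1)) := hX'
        tauto
      by_cases hbb : b' = b
      · have hjj : j' ≠ j := fun h => hne (by rw [hbb, h])
        subst hbb
        rcases hX2 with h | h
        · exact hO (2 * j') (by omega) (by omega) (by omega) h.1
        · exact hO (2 * j' + 1) (by omega) (by omega) (by omega) h.2
      · have h1 := (hQ b' hb' hbb).2
        apply h1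
        rcases hX2 with h | h
        · refine ⟨2 * j', by omega, h.1, fun i hi hne' => ?_⟩
          by_cases e1 : i = 2 * j' + 1
          · rw [e1]; exact h.2
          · exact hO' i hi hne' e1
        · refine ⟨2 * j' + 1, by omega, h.2, fun i hi hne' => ?_⟩
          by_cases e1 : i = 2 * j'
          · rw [e1]; exact h.1
          · exact hO' i hi e1 hne'
    · rintro ⟨b, j⟩ _ A ⟨⟨h1, _⟩, _, h2⟩
      exact ⟨h1, h2⟩
  have heta : ∀ b < B, ∀ j < J,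
      15 / 16 * (1 - a) ^ (2 * J - 2) * prob η ≤
        prob (η ∩ (Quiet Z B J b ∩ Others Z J b j)) := by
    intro b hb j hj
    rw [prob_eta h hK hd hη hb hj]
    have h1 := prob_Quiet_ge h b
    have h3 : 15 / 16 ≤ prob (Quiet Z B J b) := by linarith
    have h5 := mul_le_mul_of_nonneg_left h3 (mul_nonneg hPη
      (show (0 : ℝ) ≤ (1 - a) ^ (2 * J - 2) by positivity))
    calc 15 / 16 * (1 - a) ^ (2 * J - 2) * prob η
        = prob η * (1 - a) ^ (2 * J - 2) * (15 / 16) := by ring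
      _ ≤ prob η * (1 - a) ^ (2 * J - 2) * prob (Quiet Z B J b) := h5
      _ = _ := by ring
  have hlow : ∀ p ∈ Finset.range B ×ˢ Finset.range J,
      a * ((1 - a - ε) * (15 / 16 * (1 - a) ^ (2 * J - 2) * prob η)) ≤ prob (Y p) := by
    rintro ⟨b, j⟩ hp
    rw [Finset.mem_product, Finset.mem_range, Finset.mem_range] at hp
    refine le_trans ?_ (key b hp.1 j hp.2)
    exact mul_le_mul_of_nonneg_left (mul_le_mul_of_nonneg_left (heta b hp.1 j hp.2) (by linarith))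
      ha0
  have hsum := (Finset.sum_le_sum hlow).trans hYsum
  rw [Finset.sum_const, Finset.card_product, Finset.card_range, Finset.card_range,
    nsmul_eq_mul] at hsum
  push_cast at hsum
  refine num ha0 ha1 hε hPη hl hJ (le_trans (le_of_eq ?_) hsum)
  ring

end

end Pool.Agent.H583R2.BK
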