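import Pool.Agent.H583R2.BK.Key
import Pool.Agent.H583R2.NC.Prb
import Pool.Agent.H583R2.NC.NumC
import Pool.Agent.H583R2.NC.Loc

/-! Task B4: the stages of `NC` as systems of blocks. -/

namespace Pool.Agent.H583R2.BK

open MeasureTheory Pool.Agent.NPC Pool.Agent.H628R3.RO

theorem sys_NC {n s : ℕ} (hs : 4 ≤ s) (hsn : s ≤ n) :
    Sys (NC.Zero n s) (fun b i => (allSpots (NC.wl n) (NC.slot n s b i) : Set (List Bool)))
      (NC.zp n s) (NC.BB s) (NC.JJ s) where
  fin b _ i _ := Finset.finite_toSet _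
  disj b hb i hi b' hb' i' hi' h := by
    rw [Set.disjoint_left]
    intro x hx hx'
    rw [Finset.mem_coe, M2.mem_allSpots] at hx hx'
    obtain ⟨κ, hκ, hx⟩ := hx
    obtain ⟨κ', hκ', hx'⟩ := hx'
    have h5 : κ = κ' := M2.spots_disjoint hx hx'
    subst h5
    exact Finset.disjoint_left.1 (NC.slot_disjoint' hi hi' h) hκ hκ'
  loc b _ i _ := by
    refine M2.loc_noHit ?_
    intro κ hκ l hl
    rw [Finset.mem_coe, M2.mem_allSpots]
    exact ⟨κ, hκ, M2.mem_spots.2 ⟨l, hl, rfl⟩⟩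
  pr b _ i _ := by
    have h := NC.PRB.univ_slots n s b {i} ∅ (Finset.disjoint_empty_right _)
    rw [Finset.card_singleton, pow_one, Finset.card_empty, pow_zero, mul_one] at h
    rw [← h]
    congr 1
    ext A
    simp
  a0 := (NC.zp_pos n s).le
  a1 := NC.zp_le_half hs n

theorem key_genNC {n s t₀ : ℕ} (hs : 4 ≤ s) (hsn : s ≤ n) (ht₀ : t₀ < n) {η G : Set Oracle}
    (hη : Loc {x | x.length ≤ t₀} η) (hG : MeasurableSet G)
    (key : ∀ b < NC.BB s, ∀ j < NC.JJ s, NC.zp n s * ((1 - NC.zp n s - 1 / 32) *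
        prob (η ∩ (NC.Quiet n s b ∩ NC.Others n s b j))) ≤
      prob ((η ∩ (NC.Quiet n s b ∩ NC.Others n s b j)) ∩ (Ex (NC.Zero n s) b j ∩ Gᶜ))) :
    NC.ll s * (7 / 8 * prob η) ≤ prob (η ∩ Gᶜ) := by
  have hz := NC.zp_le_half hs n
  have hzp := NC.zp_pos n s
  refine key_gen (sys_NC hs hsn) (K₀ := {x | x.length ≤ t₀}) (List.finite_length_le Bool t₀) ?_
    hη hG (ε := 1 / 32) (by norm_num) le_rfl ?_ (l := NC.ll s) ?_ key
  · intro b hb i hi
    rw [Set.disjoint_left]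
    intro x hx hx'
    have h1 : n < x.length := by
      refine NC.lt_length_spotsB (s := s) x ?_
      rw [Finset.mem_coe, M2.mem_allSpots] at hx'
      obtain ⟨κ, hκ, hx'⟩ := hx'
      obtain ⟨l, hl, rfl⟩ := M2.mem_spots.1 hx'
      exact NC.pos_mem_spotsB (NC.slot_subset hb hi hκ) hl
    have h2 : x.length ≤ t₀ := hx
    omega
  · have h := NC.quiet_num hs hsn
    exact h
  · refine (NC.ll_num hs hsn).trans ?_
    have h1 : 0 ≤ (NC.JJ s : ℝ) * NC.zp n s / (1 - NC.zp n s) := by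
      have : 0 < 1 - NC.zp n s := by linarith
      positivity
    refine mul_le_mul_of_nonneg_left ?_ h1
    have h2 : 0 ≤ (NC.BB s : ℝ) * (1 - NC.zp n s) ^ NC.KK s := by
      have : 0 ≤ 1 - NC.zp n s := by linarith
      positivity
    change 1 / 2 * ((NC.BB s : ℝ) * (1 - NC.zp n s) ^ NC.KK s) ≤
      (NC.BB s : ℝ) * (1 - NC.zp n s) ^ NC.KK s
    linarith

end Pool.Agent.H583R2.BK
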