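import Pool.Agent.H583R2.BK.Defs
import Pool.Agent.H628R3.RO.D1

/-! Task B1: probabilities in a system of independent slots. -/

namespace Pool.Agent.H583R2.BK

open MeasureTheory Pool.Agent.NPC Pool.Agent.H628R3.RO

section

variable {Z : ℕ → ℕ → Set Oracle} {sp : ℕ → ℕ → Set (List Bool)} {a : ℝ} {B J : ℕ}

namespace PRB

/-- the strings of the slots `F` of block `b` -/
def spF (sp : ℕ → ℕ → Set (List Bool)) (b : ℕ) (F : Finset ℕ) : Set (List Bool) :=
  ⋃ i ∈ F, sp b i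

theorem finite_spF (h : Sys Z sp a B J) {b : ℕ} (hb : b < B) {F : Finset ℕ}
    (hF : ∀ i ∈ F, i < 2 * J) : (spF sp b F).Finite :=
  Set.Finite.biUnion (Finset.finite_toSet _) fun i hi => h.fin b hb i (hF i hi)

theorem sp_sub {b i : ℕ} {F : Finset ℕ} (hi : i ∈ F) : sp b i ⊆ spF sp b F := by
  intro x hx
  unfold spF
  simp only [Set.mem_iUnion]
  exact ⟨i, hi, hx⟩

theorem loc_set (h : Sys Z sp a B J) {K₀ : Set (List Bool)} {η : Set Oracle} (hη : Loc K₀ η)
    {b : ℕ} (hb : b < B) (F G : Finset ℕ) (hi : ∀ i ∈ F ∪ G, i < 2 * J) :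
    Loc (K₀ ∪ spF sp b (F ∪ G))
      (η ∩ {A | (∀ i ∈ F, A ∈ Z b i) ∧ ∀ i ∈ G, A ∉ Z b i}) := by
  intro A A' hA
  have h1 : A ∈ η ↔ A' ∈ η := hη A A' fun x hx => hA x (Or.inl hx)
  have h2 : ∀ i ∈ F ∪ G, (A ∈ Z b i ↔ A' ∈ Z b i) := fun i hiF =>
    h.loc b hb i (hi i hiF) A A' fun x hx => hA x (Or.inr (sp_sub hiF hx))
  simp only [Set.mem_inter_iff, Set.mem_ofPred_eq]
  refine and_congr h1 (and_congr ?_ ?_)
  · exact forall₂_congr fun i hiF => h2 i (Finset.mem_union_left _ hiF)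
  · exact forall₂_congr fun i hiG => not_congr (h2 i (Finset.mem_union_right _ hiG))

theorem disj_set (h : Sys Z sp a B J) {K₀ : Set (List Bool)} {b : ℕ} (hb : b < B) {F : Finset ℕ}
    (hF : ∀ i ∈ F, i < 2 * J) {i₀ : ℕ} (hi₀ : i₀ < 2 * J) (hn : i₀ ∉ F)
    (hd : Disjoint K₀ (sp b i₀)) : Disjoint (K₀ ∪ spF sp b F) (sp b i₀) := by
  rw [Set.disjoint_union_left]
  refine ⟨hd, ?_⟩
  rw [Set.disjoint_left]
  intro x hx hx'
  unfold spF at hx
  simp only [Set.mem_iUnion] at hx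
  obtain ⟨i, hi, hx⟩ := hx
  have hne : i ≠ i₀ := fun e => hn (e ▸ hi)
  exact Set.disjoint_left.1 (h.disj b hb i (hF i hi) b hb i₀ hi₀ (Or.inr hne)) hx hx'

theorem pr_compl (h : Sys Z sp a B J) {b i : ℕ} (hb : b < B) (hi : i < 2 * J) :
    prob (Z b i)ᶜ = 1 - a := by
  have h5 := M2.prob_inter_add_compl Set.univ
    (measurableSet_of_loc (h.fin b hb i hi) (h.loc b hb i hi))
  rw [Set.univ_inter, Set.univ_inter, prob_univ', h.pr b hb i hi] at h5
  linarith

theorem base (h : Sys Z sp a B J) {K₀ : Set (List Bool)} (hK : K₀.Finite)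
    {η : Set Oracle} (hη : Loc K₀ η) {b : ℕ} (hb : b < B) (F : Finset ℕ)
    (hi : ∀ i ∈ F, i < 2 * J) (hd : ∀ i ∈ F, Disjoint K₀ (sp b i)) :
    prob (η ∩ {A | (∀ i ∈ F, A ∈ Z b i) ∧ ∀ i ∈ (∅ : Finset ℕ), A ∉ Z b i}) =
      prob η * a ^ F.card := by
  classical
  induction F using Finset.induction_on with
  | empty => simp
  | insert i₀ F hi₀ ih =>
    have hF : ∀ i ∈ F ∪ ∅, i < 2 * J := fun i hiF =>
      hi i (Finset.mem_insert_of_mem (by simpa using hiF))
    have h1 := ih (fun i hiF => hi i (Finset.mem_insert_of_mem hiF))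
      (fun i hiF => hd i (Finset.mem_insert_of_mem hiF))
    have h2 : η ∩ {A | (∀ i ∈ insert i₀ F, A ∈ Z b i) ∧ ∀ i ∈ (∅ : Finset ℕ), A ∉ Z b i} =
        η ∩ {A | (∀ i ∈ F, A ∈ Z b i) ∧ ∀ i ∈ (∅ : Finset ℕ), A ∉ Z b i} ∩ Z b i₀ := by
      ext A
      simp only [Set.mem_inter_iff, Set.mem_ofPred_eq, Finset.mem_insert, forall_eq_or_imp]
      tauto
    have hi₀J := hi i₀ (Finset.mem_insert_self _ _)
    rw [h2, prob_inter_of_disjoint (hK.union (finite_spF h hb hF)) (h.fin b hb i₀ hi₀J)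
      (disj_set h hb hF hi₀J (by simpa using hi₀) (hd i₀ (Finset.mem_insert_self _ _)))
      (loc_set h hη hb F ∅ hF) (h.loc b hb i₀ hi₀J), h1, h.pr b hb i₀ hi₀J,
      Finset.card_insert_of_notMem hi₀, pow_succ]
    ring

theorem main (h : Sys Z sp a B J) {K₀ : Set (List Bool)} (hK : K₀.Finite)
    {η : Set Oracle} (hη : Loc K₀ η) {b : ℕ} (hb : b < B) (F G : Finset ℕ) (hFG : Disjoint F G)
    (hi : ∀ i ∈ F ∪ G, i < 2 * J) (hd : ∀ i ∈ F ∪ G, Disjoint K₀ (sp b i)) :
    prob (η ∩ {A | (∀ i ∈ F, A ∈ Z b i) ∧ ∀ i ∈ G, A ∉ Z b i}) =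
      prob η * (a ^ F.card * (1 - a) ^ G.card) := by
  classical
  induction G using Finset.induction_on with
  | empty =>
    rw [Finset.card_empty, pow_zero, mul_one]
    exact base h hK hη hb F (fun i hiF => hi i (Finset.mem_union_left _ hiF))
      (fun i hiF => hd i (Finset.mem_union_left _ hiF))
  | insert i₀ G hi₀ ih =>
    rw [Finset.disjoint_insert_right] at hFG
    obtain ⟨h1, h2⟩ := hFG
    have hsub : ∀ i ∈ F ∪ G, i ∈ F ∪ insert i₀ G := by
      intro i hiF
      rw [Finset.mem_union] at hiF ⊢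
      rw [Finset.mem_insert]
      tauto
    have hmem : i₀ ∈ F ∪ insert i₀ G :=
      Finset.mem_union_right _ (Finset.mem_insert_self _ _)
    have h3 := ih h2 (fun i hiF => hi i (hsub i hiF)) (fun i hiF => hd i (hsub i hiF))
    have h4 : η ∩ {A | (∀ i ∈ F, A ∈ Z b i) ∧ ∀ i ∈ insert i₀ G, A ∉ Z b i} =
        η ∩ {A | (∀ i ∈ F, A ∈ Z b i) ∧ ∀ i ∈ G, A ∉ Z b i} ∩ (Z b i₀)ᶜ := by
      ext A
      simp only [Set.mem_inter_iff, Set.mem_ofPred_eq, Finset.mem_insert, forall_eq_or_imp,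
        Set.mem_compl_iff]
      tauto
    have hF : ∀ i ∈ F ∪ G, i < 2 * J := fun i hiF => hi i (hsub i hiF)
    have hi₀J := hi i₀ hmem
    have hn : i₀ ∉ F ∪ G := by
      rw [Finset.mem_union]
      tauto
    rw [h4, prob_inter_of_disjoint (hK.union (finite_spF h hb hF)) (h.fin b hb i₀ hi₀J)
      (disj_set h hb hF hi₀J hn (hd i₀ hmem))
      (loc_set h hη hb F G hF) (M2.Loc.compl (h.loc b hb i₀ hi₀J)), h3, pr_compl h hb hi₀J,
      Finset.card_insert_of_notMem hi₀, pow_succ]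
    ring

theorem univ_slots (h : Sys Z sp a B J) {b : ℕ} (hb : b < B) (F G : Finset ℕ)
    (hFG : Disjoint F G) (hi : ∀ i ∈ F ∪ G, i < 2 * J) :
    prob {A | (∀ i ∈ F, A ∈ Z b i) ∧ ∀ i ∈ G, A ∉ Z b i} =
      a ^ F.card * (1 - a) ^ G.card := by
  have h1 := main h (K₀ := ∅) Set.finite_empty (η := Set.univ) (fun A A' _ => by simp) hb F G hFG
    hi (fun i _ => Set.empty_disjoint _)
  rw [Set.univ_inter, prob_univ', one_mul] at h1
  exact h1

theorem sum_le {N : ℕ} {f : ℕ → ℝ} {c : ℝ} (h : ∀ i < N, f i ≤ c) :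
    ∑ i ∈ Finset.range N, f i ≤ N * c := by
  have := Finset.sum_le_card_nsmul (Finset.range N) f c (fun i hi => h i (Finset.mem_range.1 hi))
  rwa [Finset.card_range, nsmul_eq_mul] at this

/-- the strings of block `b` -/
def sb (sp : ℕ → ℕ → Set (List Bool)) (J b : ℕ) : Set (List Bool) :=
  spF sp b (Finset.range (2 * J))

theorem finite_sb (h : Sys Z sp a B J) {b : ℕ} (hb : b < B) : (sb sp J b).Finite :=
  finite_spF h hb fun _ hi => Finset.mem_range.1 hi

theorem loc_Z (h : Sys Z sp a B J) {b i : ℕ} (hb : b < B) (hi : i < 2 * J) :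
    Loc (sb sp J b) (Z b i) :=
  M2.Loc.mono (h.loc b hb i hi) (sp_sub (Finset.mem_range.2 hi))

theorem disjoint_sb (h : Sys Z sp a B J) {b b' : ℕ} (hb : b < B) (hb' : b' < B) (hne : b ≠ b') :
    Disjoint (sb sp J b) (sb sp J b') := by
  rw [Set.disjoint_left]
  intro x hx hx'
  unfold sb spF at hx hx'
  simp only [Set.mem_iUnion, Finset.mem_range] at hx hx'
  obtain ⟨i, hi, hx⟩ := hx
  obtain ⟨i', hi', hx'⟩ := hx'
  exact Set.disjoint_left.1 (h.disj b hb i hi b' hb' i' hi' (Or.inl hne)) hx hx'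

theorem loc_AllHit (h : Sys Z sp a B J) {b : ℕ} (hb : b < B) : Loc (sb sp J b) (AllHit Z J b) := by
  intro A A' hA
  unfold AllHit
  simp only [Set.mem_ofPred_eq]
  exact forall₂_congr fun i hi => not_congr (loc_Z h hb hi A A' hA)

theorem loc_One (h : Sys Z sp a B J) {b : ℕ} (hb : b < B) : Loc (sb sp J b) (One Z J b) := by
  intro A A' hA
  unfold One
  simp only [Set.mem_ofPred_eq]
  exact exists_congr fun i₀ => and_congr_right fun hi₀ => and_congr (loc_Z h hb hi₀ A A' hA)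
    (forall₂_congr fun i hi => forall_congr' fun _ => not_congr (loc_Z h hb hi A A' hA))

/-- the strings of the blocks other than `b` -/
def sbo (sp : ℕ → ℕ → Set (List Bool)) (B J b : ℕ) : Set (List Bool) :=
  {x | ∃ b' < B, b' ≠ b ∧ x ∈ sb sp J b'}

theorem finite_sbo (h : Sys Z sp a B J) (b : ℕ) : (sbo sp B J b).Finite := by
  have : sbo sp B J b ⊆ ⋃ b' ∈ Finset.range B, sb sp J b' := by
    rintro x ⟨b', hb', -, hx⟩
    simp only [Set.mem_iUnion]
    exact ⟨b', Finset.mem_range.2 hb', hx⟩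
  exact (Set.Finite.biUnion (Finset.finite_toSet _) fun b' hb' =>
    finite_sb h (by simpa using hb')).subset this

theorem loc_Quiet (h : Sys Z sp a B J) (b : ℕ) : Loc (sbo sp B J b) (Quiet Z B J b) := by
  intro A A' hA
  unfold Quiet
  simp only [Set.mem_ofPred_eq]
  refine forall₂_congr fun b' hb' => forall_congr' fun hne => ?_
  have h' : ∀ x ∈ sb sp J b', A x = A' x := fun x hx => hA x ⟨b', hb', hne, hx⟩
  exact and_congr (not_congr (loc_AllHit h hb' A A' h')) (not_congr (loc_One h hb' A A' h'))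

end PRB

theorem prob_slots (h : Sys Z sp a B J) {K₀ : Set (List Bool)} (hK : K₀.Finite)
    {η : Set Oracle} (hη : Loc K₀ η) {b : ℕ} (hb : b < B) (F G : Finset ℕ) (hFG : Disjoint F G)
    (hi : ∀ i ∈ F ∪ G, i < 2 * J) (hd : ∀ i ∈ F ∪ G, Disjoint K₀ (sp b i)) :
    prob (η ∩ {A | (∀ i ∈ F, A ∈ Z b i) ∧ ∀ i ∈ G, A ∉ Z b i}) =
      prob η * (a ^ F.card * (1 - a) ^ G.card) :=
  PRB.main h hK hη hb F G hFG hi hd

theorem prob_AllHit (h : Sys Z sp a B J) {b : ℕ} (hb : b < B) :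
    prob (AllHit Z J b) = (1 - a) ^ (2 * J) := by
  have h1 := PRB.univ_slots h hb ∅ (Finset.range (2 * J)) (Finset.disjoint_empty_left _)
    (fun i hi => by simpa using hi)
  rw [Finset.card_empty, pow_zero, one_mul, Finset.card_range] at h1
  rw [← h1]
  congr 1
  ext A
  simp [AllHit]

theorem prob_One_le (h : Sys Z sp a B J) {b : ℕ} (hb : b < B) :
    prob (One Z J b) ≤ (2 * J : ℕ) * a * (1 - a) ^ (2 * J - 1) := by
  have h1 : One Z J b ⊆ ⋃ i₀ ∈ Finset.range (2 * J), {A | (∀ i ∈ ({i₀} : Finset ℕ),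
      A ∈ Z b i) ∧ ∀ i ∈ (Finset.range (2 * J)).erase i₀, A ∉ Z b i} := by
    rintro A ⟨i₀, hi₀, h2, h3⟩
    simp only [Set.mem_iUnion]
    refine ⟨i₀, Finset.mem_range.2 hi₀, ?_, ?_⟩
    · intro i hi
      rw [Finset.mem_singleton.1 hi]
      exact h2
    · intro i hi
      rw [Finset.mem_erase, Finset.mem_range] at hi
      exact h3 i hi.2 hi.1
  refine (M2.prob_mono h1).trans ?_
  refine (measureReal_biUnion_finset_le _ _).trans ?_
  rw [mul_assoc]
  apply PRB.sum_le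
  intro i₀ hi₀
  have h4 := PRB.univ_slots h hb {i₀} ((Finset.range (2 * J)).erase i₀) (by simp) (by
    intro i hi
    rw [Finset.mem_union, Finset.mem_singleton, Finset.mem_erase, Finset.mem_range] at hi
    rcases hi with rfl | hi
    · exact hi₀
    · exact hi.2)
  rw [Finset.card_singleton, pow_one, Finset.card_erase_of_mem (Finset.mem_range.2 hi₀),
    Finset.card_range] at h4
  exact h4.le

theorem prob_Two_le (h : Sys Z sp a B J) :
    prob (Two Z B J) ≤ B * J * (a ^ 2 * (1 - a) ^ (2 * J - 2)) := by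
  have h1 : Two Z B J ⊆ ⋃ b ∈ Finset.range B, ⋃ j ∈ Finset.range J,
      {A | (∀ i ∈ ({2 * j, 2 * j + 1} : Finset ℕ), A ∈ Z b i) ∧
        ∀ i ∈ Finset.range (2 * J) \ {2 * j, 2 * j + 1}, A ∉ Z b i} := by
    rintro A ⟨b, hb, j, hj, h2, h3, h4⟩
    simp only [Set.mem_iUnion]
    refine ⟨b, Finset.mem_range.2 hb, j, Finset.mem_range.2 hj, ?_, ?_⟩
    · intro i hi
      rw [Finset.mem_insert, Finset.mem_singleton] at hi
      rcases hi with rfl | rfl
      · exact h3
      · exact h4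
    · intro i hi
      simp only [Finset.mem_sdiff, Finset.mem_range, Finset.mem_insert, Finset.mem_singleton,
        not_or] at hi
      exact h2 i hi.1 hi.2.1 hi.2.2
  refine (M2.prob_mono h1).trans ?_
  refine (measureReal_biUnion_finset_le _ _).trans ?_
  rw [mul_assoc]
  apply PRB.sum_le
  intro b hb
  refine (measureReal_biUnion_finset_le _ _).trans ?_
  apply PRB.sum_le
  intro j hj
  have h6 : ({2 * j, 2 * j + 1} : Finset ℕ) ⊆ Finset.range (2 * J) := by
    intro i hi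
    rw [Finset.mem_insert, Finset.mem_singleton] at hi
    rw [Finset.mem_range]
    omega
  have h4 := PRB.univ_slots h hb {2 * j, 2 * j + 1} (Finset.range (2 * J) \ {2 * j, 2 * j + 1})
    Finset.disjoint_sdiff (by
      intro i hi
      rw [Finset.mem_union] at hi
      rcases hi with hi | hi
      · exact Finset.mem_range.1 (h6 hi)
      · exact Finset.mem_range.1 (Finset.mem_sdiff.1 hi).1)
  have h5 : ({2 * j, 2 * j + 1} : Finset ℕ).card = 2 := Finset.card_pair (by omega)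
  rw [Finset.card_sdiff_of_subset h6, h5, Finset.card_range] at h4
  exact h4.le

theorem prob_Bad_le (h : Sys Z sp a B J) : prob (Bad Z B J) ≤ B * (1 - a) ^ (2 * J) := by
  have h1 : Bad Z B J ⊆ ⋃ b ∈ Finset.range B, AllHit Z J b := by
    rintro A ⟨b, hb, h⟩
    simp only [Set.mem_iUnion]
    exact ⟨b, Finset.mem_range.2 hb, h⟩
  refine (M2.prob_mono h1).trans ?_
  refine (measureReal_biUnion_finset_le _ _).trans ?_
  apply PRB.sum_le
  intro b hb
  exact (prob_AllHit h hb).le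

theorem prob_Quiet_ge (h : Sys Z sp a B J) (b : ℕ) : 1 - B * ((1 - a) ^ (2 * J) +
    (2 * J : ℕ) * a * (1 - a) ^ (2 * J - 1)) ≤ prob (Quiet Z B J b) := by
  have h1 : Set.univ ⊆ Quiet Z B J b ∪ ⋃ b' ∈ Finset.range B, (AllHit Z J b' ∪ One Z J b') := by
    intro A _
    by_cases hA : A ∈ Quiet Z B J b
    · exact Or.inl hA
    · refine Or.inr ?_
      unfold Quiet at hA
      simp only [Set.mem_ofPred_eq] at hA
      push Not at hA
      obtain ⟨b', hb', -, h⟩ := hA
      simp only [Set.mem_iUnion]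
      refine ⟨b', Finset.mem_range.2 hb', ?_⟩
      by_cases h' : A ∈ AllHit Z J b'
      · exact Or.inl h'
      · exact Or.inr (h h')
  have h2 := (M2.prob_mono h1).trans (M2.prob_union_le _ _)
  rw [prob_univ'] at h2
  have h3 : prob (⋃ b' ∈ Finset.range B, (AllHit Z J b' ∪ One Z J b')) ≤
      B * ((1 - a) ^ (2 * J) + (2 * J : ℕ) * a * (1 - a) ^ (2 * J - 1)) := by
    refine (measureReal_biUnion_finset_le _ _).trans ?_
    apply PRB.sum_le
    intro b' hb'
    refine (M2.prob_union_le _ _).trans ?_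
    exact add_le_add (prob_AllHit h hb').le (prob_One_le h hb')
  linarith

theorem prob_eta (h : Sys Z sp a B J) {K₀ : Set (List Bool)} (hK : K₀.Finite)
    (hd : ∀ b < B, ∀ i < 2 * J, Disjoint K₀ (sp b i)) {η : Set Oracle} (hη : Loc K₀ η)
    {b j : ℕ} (hb : b < B) (hj : j < J) :
    prob (η ∩ (Quiet Z B J b ∩ Others Z J b j)) =
      prob η * prob (Quiet Z B J b) * (1 - a) ^ (2 * J - 2) := by
  have hdis : Disjoint K₀ (PRB.sbo sp B J b) := by
    rw [Set.disjoint_left]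
    rintro x hx ⟨b', hb', -, hx'⟩
    unfold PRB.sb PRB.spF at hx'
    simp only [Set.mem_iUnion, Finset.mem_range] at hx'
    obtain ⟨i, hi, hx'⟩ := hx'
    exact Set.disjoint_left.1 (hd b' hb' i hi) hx hx'
  have h1 : prob (η ∩ Quiet Z B J b) = prob η * prob (Quiet Z B J b) :=
    prob_inter_of_disjoint hK (PRB.finite_sbo h b) hdis hη (PRB.loc_Quiet h b)
  have h2 : Loc (K₀ ∪ PRB.sbo sp B J b) (η ∩ Quiet Z B J b) :=
    M2.Loc.inter (M2.Loc.mono hη Set.subset_union_left)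
      (M2.Loc.mono (PRB.loc_Quiet h b) Set.subset_union_right)
  have h6 : ({2 * j, 2 * j + 1} : Finset ℕ) ⊆ Finset.range (2 * J) := by
    intro i hi
    rw [Finset.mem_insert, Finset.mem_singleton] at hi
    rw [Finset.mem_range]
    omega
  have h3 := prob_slots h (hK.union (PRB.finite_sbo h b)) h2 hb ∅
    (Finset.range (2 * J) \ {2 * j, 2 * j + 1}) (Finset.disjoint_empty_left _) (by
      intro i hi
      rw [Finset.empty_union, Finset.mem_sdiff, Finset.mem_range] at hi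
      exact hi.1) (by
      intro i hi
      rw [Finset.empty_union, Finset.mem_sdiff, Finset.mem_range] at hi
      rw [Set.disjoint_union_left]
      refine ⟨hd b hb i hi.1, ?_⟩
      rw [Set.disjoint_left]
      rintro x ⟨b', hb', hne, hx⟩ hx'
      exact Set.disjoint_left.1 (PRB.disjoint_sb h hb' hb hne) hx
        (PRB.sp_sub (Finset.mem_range.2 hi.1) hx'))
  rw [Finset.card_sdiff_of_subset h6, Finset.card_pair (by omega : 2 * j ≠ 2 * j + 1),
    Finset.card_range, Finset.card_empty, pow_zero, one_mul, h1] at h3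
  rw [← h3]
  congr 1
  ext A
  simp only [Others, Set.mem_inter_iff, Set.mem_ofPred_eq, Finset.notMem_empty, false_imp_iff,
    implies_true, true_and, Finset.mem_sdiff, Finset.mem_range, Finset.mem_insert,
    Finset.mem_singleton, not_or, and_imp]
  tauto

end

end Pool.Agent.H583R2.BK
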