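import Pool.Agent.H583R2.BK.Defs
import Pool.Agent.H583R2.NC.Main

/-! Stubs. Never import this file in a finished file. -/

namespace Pool.Agent.H583R2.BK

open MeasureTheory Pool.Agent.NPC Pool.Agent.H628R3.RO

section

variable {Z : ℕ → ℕ → Set Oracle} {sp : ℕ → ℕ → Set (List Bool)} {a : ℝ} {B J : ℕ}

/-! ### Task B1 (file `BK/Prb.lean`) -/

theorem prob_slots (h : Sys Z sp a B J) {K₀ : Set (List Bool)} (hK : K₀.Finite)
    {η : Set Oracle} (hη : Loc K₀ η) {b : ℕ} (hb : b < B) (F G : Finset ℕ) (hFG : Disjoint F G)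
    (hi : ∀ i ∈ F ∪ G, i < 2 * J) (hd : ∀ i ∈ F ∪ G, Disjoint K₀ (sp b i)) :
    prob (η ∩ {A | (∀ i ∈ F, A ∈ Z b i) ∧ ∀ i ∈ G, A ∉ Z b i}) =
      prob η * (a ^ F.card * (1 - a) ^ G.card) := by sorry
theorem prob_AllHit (h : Sys Z sp a B J) {b : ℕ} (hb : b < B) :
    prob (AllHit Z J b) = (1 - a) ^ (2 * J) := by sorry
theorem prob_One_le (h : Sys Z sp a B J) {b : ℕ} (hb : b < B) :
    prob (One Z J b) ≤ (2 * J : ℕ) * a * (1 - a) ^ (2 * J - 1) := by sorry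
theorem prob_Two_le (h : Sys Z sp a B J) :
    prob (Two Z B J) ≤ B * J * (a ^ 2 * (1 - a) ^ (2 * J - 2)) := by sorry
theorem prob_Bad_le (h : Sys Z sp a B J) : prob (Bad Z B J) ≤ B * (1 - a) ^ (2 * J) := by sorry
theorem prob_Quiet_ge (h : Sys Z sp a B J) (b : ℕ) : 1 - B * ((1 - a) ^ (2 * J) +
    (2 * J : ℕ) * a * (1 - a) ^ (2 * J - 1)) ≤ prob (Quiet Z B J b) := by sorry
theorem prob_eta (h : Sys Z sp a B J) {K₀ : Set (List Bool)} (hK : K₀.Finite)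
    (hd : ∀ b < B, ∀ i < 2 * J, Disjoint K₀ (sp b i)) {η : Set Oracle} (hη : Loc K₀ η)
    {b j : ℕ} (hb : b < B) (hj : j < J) :
    prob (η ∩ (Quiet Z B J b ∩ Others Z J b j)) =
      prob η * prob (Quiet Z B J b) * (1 - a) ^ (2 * J - 2) := by sorry

/-! ### Task B2 (file `BK/Key.lean`, imports B1) -/

theorem key_gen (h : Sys Z sp a B J) {K₀ : Set (List Bool)} (hK : K₀.Finite)
    (hd : ∀ b < B, ∀ i < 2 * J, Disjoint K₀ (sp b i)) {η G : Set Oracle} (hη : Loc K₀ η)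
    (hG : MeasurableSet G) {ε : ℝ} (hε0 : 0 ≤ ε) (hε : ε ≤ 1 / 32)
    (hq : (B : ℝ) * ((1 - a) ^ (2 * J) + (2 * J : ℕ) * a * (1 - a) ^ (2 * J - 1)) ≤ 1 / 16)
    {l : ℝ} (hl : l ≤ J * a / (1 - a) * (B * (1 - a) ^ (2 * J)))
    (key : ∀ b < B, ∀ j < J, a * ((1 - a - ε) * prob (η ∩ (Quiet Z B J b ∩ Others Z J b j))) ≤
      prob ((η ∩ (Quiet Z B J b ∩ Others Z J b j)) ∩ (Ex Z b j ∩ Gᶜ))) :
    l * (7 / 8 * prob η) ≤ prob (η ∩ Gᶜ) := by sorry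

end

/-! ### Task B3 (file `BK/Core.lean`): the core for separations -/

/-- the stages in use -/
noncomputable def TT (i : ℕ) : ℕ := Tt Polynomial.X 0 i

/-- the schedule: stage `TT i` has level `i + 4` -/
noncomputable def fT (n0 n : ℕ) : Option ℕ :=
  schK (fun _ _ => Set.univ) (fun _ _ => ∅) Polynomial.X 0 [] n0 n

theorem fT_TT {n0 i : ℕ} (h : n0 ≤ TT i) : fT n0 (TT i) = some (i + 4) := by sorry
theorem eq_of_fT {n0 n s : ℕ} (h : fT n0 n = some s) : n0 ≤ n ∧ ∃ i, n = TT i ∧ s = i + 4 := by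
  sorry
theorem le_TT (i : ℕ) : i + 4 ≤ TT i := by sorry
theorem strictMono_TT : StrictMono TT := by sorry
theorem p_fT (n0 : ℕ) : Poly (fun x : List Unit => fT n0 x.length) := by sorry

theorem core_zero {R : Type} [Countable R] (Inv : ℕ → ℕ → Set Oracle)
    (Good : R → ℕ → ℕ → Set Oracle) (e l : ℕ → ℝ) (he0 : ∀ s, 0 ≤ e s) (he : Summable e) (N₀ : ℕ)
    (hInv : ∀ n s, N₀ ≤ n → 4 ≤ s → s ≤ n → prob (Inv n s) ≤ e s)
    (hl0 : ∀ s, 0 ≤ l s) (hl : ¬ Summable l)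
    (hGood : ∀ r, ∃ b' : Polynomial ℕ, ∀ n s, s ≤ n →
      Loc {x | x.length ≤ b'.eval (2 ^ n)} (Good r n s))
    (key : ∀ r : R, ∃ n0, ∀ n ≥ n0, ∀ s, 4 ≤ s → s ≤ n → ∀ t < n, ∀ η : Set Oracle,
      Loc {x | x.length ≤ t} η → l s * (7 / 8 * prob η) ≤ prob (η ∩ (Good r n s)ᶜ)) :
    ∀ᵐ A ∂randomOracle, (∃ k, ∀ i ≥ k, A ∉ Inv (TT i) (i + 4)) ∧
      ∀ r k, ∃ i ≥ k, A ∉ Good r (TT i) (i + 4) := by sorry

/-! ### Task B4 (file `BK/NCSys.lean`, imports B2, NC.Prb, NC.NumC, NC.Loc) -/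

theorem sys_NC {n s : ℕ} (hs : 4 ≤ s) (hsn : s ≤ n) :
    Sys (NC.Zero n s) (fun b i => (allSpots (NC.wl n) (NC.slot n s b i) : Set (List Bool)))
      (NC.zp n s) (NC.BB s) (NC.JJ s) := by sorry

theorem key_genNC {n s t₀ : ℕ} (hs : 4 ≤ s) (hsn : s ≤ n) (ht₀ : t₀ < n) {η G : Set Oracle}
    (hη : Loc {x | x.length ≤ t₀} η) (hG : MeasurableSet G)
    (key : ∀ b < NC.BB s, ∀ j < NC.JJ s, NC.zp n s * ((1 - NC.zp n s - 1 / 32) *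
        prob (η ∩ (NC.Quiet n s b ∩ NC.Others n s b j))) ≤
      prob ((η ∩ (NC.Quiet n s b ∩ NC.Others n s b j)) ∩ (Ex (NC.Zero n s) b j ∩ Gᶜ))) :
    NC.ll s * (7 / 8 * prob η) ≤ prob (η ∩ Gᶜ) := by sorry

end Pool.Agent.H583R2.BK
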